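import Pool.Agent.X58.CN.Sq

set_option autoImplicit false

/-!
# The numbers `3 b v (12 b v - 1) (12 b v + 1)`
-/

namespace Pool.Agent.X58.CN

open Finset Filter

/-- `3 b v (12 b v - 1) (12 b v + 1)` -/
def num (b v : ℕ) : ℕ := 3 * b * v * (12 * b * v - 1) * (12 * b * v + 1)

/-- `q` divides `v`, `12 b v - 1` or `12 b v + 1` -/
def Dv (b q v : ℕ) : Prop := q ∣ v ∨ q ∣ 12 * b * v - 1 ∨ q ∣ 12 * b * v + 1

/-- the parameters of the class `t` -/
def Good (b t r : ℕ) : Set ℕ :=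
  {v | num b v % 8 = t ∧ Squarefree (num b v) ∧ ArithmeticFunction.cardFactors (num b v) ≤ r ∧
    ∀ q : ℕ, q.Prime → Dv b q v → (v : ℝ) ^ (1 / (r : ℝ)) < q}

/-- the admissible `b` and `t` -/
def Adm (b t : ℕ) : Prop := Squarefree b ∧ ¬ 3 ∣ b ∧ t < 8 ∧ t % 4 ≠ 0 ∧ t % 2 = b % 2

theorem num_eq (b v : ℕ) (hb : 1 ≤ b) (hv : 1 ≤ v) : num b v + 3 * (b * v) = 432 * (b * v) ^ 3 := by
  unfold num
  obtain ⟨k, hk⟩ : ∃ k, 12 * b * v = k + 1 := ⟨12 * b * v - 1, by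
    have : 0 < 12 * b * v := by positivity
    omega⟩
  have e1 : 12 * b * v - 1 = k := by omega
  rw [e1]
  have e2 : 3 * b * v = 3 * (b * v) := by ring
  have e3 : 12 * (b * v) = k + 1 := by rw [← hk]; ring
  rw [e2, hk]
  generalize b * v = x at *
  have h1 : (k : ℤ) = 12 * x - 1 := by omega
  have : ((3 * x * k * (k + 1 + 1) + 3 * x : ℕ) : ℤ) = ((432 * x ^ 3 : ℕ) : ℤ) := by
    push_cast
    rw [h1]
    ring
  exact_mod_cast this

theorem num_mod (b v : ℕ) (hb : 1 ≤ b) (hv : 1 ≤ v) : num b v % 8 = 5 * (b * v) % 8 := by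
  have h := num_eq b v hb hv
  generalize b * v = x at *
  generalize x ^ 3 = y at *
  omega

theorem exS (b t : ℕ) (h : Adm b t) : ∃ s : ℕ, s < 8 ∧ s % 2 = 1 ∧ 5 * (b * s) % 8 = t := by
  obtain ⟨hb, -, ht, ht4, htb⟩ := h
  have hb4 : b % 4 ≠ 0 := by
    intro h0
    have h1 : 2 * 2 ∣ b := by omega
    have := Nat.isUnit_iff.1 (hb 2 h1)
    omega
  have key : ∀ c u : Fin 8, (c : ℕ) % 4 ≠ 0 → (u : ℕ) % 4 ≠ 0 → (u : ℕ) % 2 = (c : ℕ) % 2 →
      ∃ s : Fin 8, (s : ℕ) % 2 = 1 ∧ 5 * ((c : ℕ) * (s : ℕ)) % 8 = (u : ℕ) := by decide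
  obtain ⟨⟨s, h1⟩, h2, h3⟩ := key ⟨b % 8, Nat.mod_lt _ (by norm_num)⟩ ⟨t, ht⟩
    (show b % 8 % 4 ≠ 0 by omega) ht4 (show t % 2 = b % 8 % 2 by omega)
  refine ⟨s, h1, h2, ?_⟩
  replace h3 : 5 * (b % 8 * s) % 8 = t := h3
  rw [← h3]
  conv_lhs => rw [Nat.mul_mod, Nat.mul_mod b s]
  conv_rhs => rw [Nat.mul_mod, Nat.mul_mod (b % 8) s, Nat.mod_mod]

/-- the congruent numbers -/
theorem cong (b v : ℕ) (hb : 1 ≤ b) (hv : 1 ≤ v) : ∃ x y z : ℚ, 0 < x ∧ 0 < y ∧ x ^ 2 + y ^ 2 = z ^ 2 ∧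
    (num b v : ℚ) = x * y / 2 := by
  have hbv : (1 : ℚ) ≤ (b : ℚ) * v := by exact_mod_cast Nat.mul_le_mul hb hv
  have hnum : (num b v : ℚ) = 3 * b * v * (12 * b * v - 1) * (12 * b * v + 1) := by
    have h := num_eq b v hb hv
    have h2 : ((num b v + 3 * (b * v) : ℕ) : ℚ) = ((432 * (b * v) ^ 3 : ℕ) : ℚ) := by rw [h]
    push_cast at h2
    linear_combination h2
  refine ⟨((12 * b * v) ^ 2 - 1) / 2, 12 * b * v, ((12 * b * v) ^ 2 + 1) / 2, ?_, ?_, ?_, ?_⟩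
  · have : (1 : ℚ) < (12 * b * v) ^ 2 := by nlinarith
    linarith
  · linarith
  · ring
  · rw [hnum]
    ring

theorem inv_ex (p : ℕ) [Fact p.Prime] (B : ZMod p) (hB : p ≤ 3 → B = 0) :
    ∃ y : ZMod p, y ≠ 0 ∧ B * y - 1 ≠ 0 ∧ B * y + 1 ≠ 0 := by
  classical
  rcases eq_or_ne B 0 with h0 | h0
  · refine ⟨1, one_ne_zero, ?_, ?_⟩
    · rw [h0, zero_mul, zero_sub]
      exact neg_ne_zero.2 one_ne_zero
    · rw [h0, zero_mul, zero_add]
      exact one_ne_zero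
  · have hp4 : 4 ≤ p := by
      by_contra h
      exact h0 (hB (by omega))
    have hc : ({0, B⁻¹, -B⁻¹} : Finset (ZMod p)).card < (univ : Finset (ZMod p)).card := by
      rw [card_univ, ZMod.card]
      have := card_le_three (a := (0 : ZMod p)) (b := B⁻¹) (c := -B⁻¹)
      omega
    obtain ⟨y, _, hy⟩ := exists_mem_notMem_of_card_lt_card hc
    rw [mem_insert, mem_insert, mem_singleton] at hy
    push Not at hy
    refine ⟨y, hy.1, ?_, ?_⟩
    · intro h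
      apply hy.2.1
      exact eq_inv_of_mul_eq_one_right (by linear_combination h)
    · intro h
      apply hy.2.2
      have h1 : B * (-y) = 1 := by linear_combination -h
      have h2 : -y = B⁻¹ := eq_inv_of_mul_eq_one_right h1
      rw [← h2, neg_neg]

/-- admissibility -/
theorem adm_lin (b s : ℕ) (hs : s % 2 = 1) (p : ℕ) (hp : p.Prime) :
    ∃ m : ℕ, ∀ i : Fin 3, ¬ (p : ℤ) ∣ ((![8, 96 * b, 96 * b] i : ℕ) : ℤ) * m + (![(s : ℤ), 12 * b * s - 1, 12 * b * s + 1] i) := by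
  haveI : Fact p.Prime := ⟨hp⟩
  by_cases h2 : p = 2
  · subst h2
    refine ⟨0, fun i => ?_⟩
    fin_cases i
    · show ¬ ((2 : ℕ) : ℤ) ∣ _
      simp
      omega
    · simp
      have : (2 : ℤ) ∣ 12 * b * s := ⟨6 * b * s, by ring⟩
      omega
    · simp
      have : (2 : ℤ) ∣ 12 * b * s := ⟨6 * b * s, by ring⟩
      omega
  · have h8 : (8 : ZMod p) ≠ 0 := by
      intro h
      have h1 : ((8 : ℕ) : ZMod p) = 0 := by exact_mod_cast h
      rw [ZMod.natCast_eq_zero_iff] at h1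
      have h3 : p ∣ 2 ^ 3 := by norm_num; exact h1
      exact h2 ((Nat.prime_dvd_prime_iff_eq hp Nat.prime_two).1 (hp.dvd_of_dvd_pow h3))
    obtain ⟨y, hy0, hy1, hy2⟩ := inv_ex p ((12 * b : ℕ) : ZMod p) (by
      intro h3
      have h4 : p = 3 := by
        have := hp.two_le
        omega
      rw [ZMod.natCast_eq_zero_iff, h4]
      exact ⟨4 * b, by ring⟩)
    obtain ⟨m, hm⟩ : ∃ m : ℕ, ((m : ℕ) : ZMod p) = (y - s) * 8⁻¹ := ⟨((y - s) * 8⁻¹ : ZMod p).val, by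
      rw [ZMod.natCast_val, ZMod.cast_id]⟩
    have e0 : (8 : ZMod p) * m + s = y := by
      rw [hm]
      field_simp
      ring
    refine ⟨m, fun i => ?_⟩
    rw [← ZMod.intCast_zmod_eq_zero_iff_dvd]
    fin_cases i
    · simp
      intro h
      apply hy0
      rw [← e0]
      exact h
    · simp only [Fin.mk_one, Matrix.cons_val_one, Matrix.cons_val_zero]
      push_cast
      intro h
      apply hy1
      rw [← e0]
      push_cast
      linear_combination h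
    · simp
      intro h
      apply hy2
      rw [← e0]
      push_cast
      linear_combination h

end Pool.Agent.X58.CN
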