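import Pool.Agent.TH977.PW.Inst
import Pool.Agent.X58.CN.Num

set_option autoImplicit false

/-!
# The number of the good parameters
-/

namespace Pool.Agent.X58.CN

open Finset Filter Polynomial
open Pool.Agent.TH977.PW
open Pool.Agent.W182.PW

theorem sqf_num (b v : ℕ) (hb : 1 ≤ b) (hv : 1 ≤ v) (hb3 : Squarefree (3 * b)) (h1 : Squarefree v)
    (h2 : Squarefree (12 * b * v - 1)) (h3 : Squarefree (12 * b * v + 1)) (hc : Nat.Coprime (3 * b) v) :
    Squarefree (num b v) := by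
  have h0 : 0 < 12 * b * v := by positivity
  have e1 : (12 * b * v - 1) + 1 = 12 * b * v := by omega
  have c1 : Nat.Coprime (12 * b * v) (12 * b * v - 1) := by
    have h : Nat.Coprime (12 * b * v - 1) (12 * b * v - 1 + 1) :=
      Nat.coprime_self_add_right.2 (Nat.coprime_one_right _)
    rw [e1] at h
    exact h.symm
  have c2 : Nat.Coprime (12 * b * v) (12 * b * v + 1) :=
    Nat.coprime_self_add_right.2 (Nat.coprime_one_right _)
  have d : 3 * b * v ∣ 12 * b * v := ⟨4, by ring⟩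
  have c3 : Nat.Coprime (12 * b * v - 1) (12 * b * v + 1) := by
    have e2 : 12 * b * v + 1 = 2 + (12 * b * v - 1) := by omega
    rw [e2, Nat.coprime_add_self_right, Nat.coprime_comm, Nat.coprime_two_left, Nat.odd_iff]
    have : 12 * b * v = 2 * (6 * b * v) := by ring
    omega
  unfold num
  rw [Nat.squarefree_mul_iff, Nat.squarefree_mul_iff, Nat.squarefree_mul_iff]
  refine ⟨?_, ⟨?_, ⟨hc, hb3, h1⟩, h2⟩, h3⟩
  · rw [Nat.coprime_mul_iff_left]
    exact ⟨c2.coprime_dvd_left d, c3⟩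
  · exact c1.coprime_dvd_left d

theorem Omega_num (b v : ℕ) (hb : 1 ≤ b) (hv : 1 ≤ v) : ArithmeticFunction.cardFactors (num b v) =
    ArithmeticFunction.cardFactors (3 * b) + ArithmeticFunction.cardFactors v +
    ArithmeticFunction.cardFactors (12 * b * v - 1) + ArithmeticFunction.cardFactors (12 * b * v + 1) := by
  have h0 : 12 ≤ 12 * b * v := by
    calc 12 = 12 * 1 * 1 := by norm_num
      _ ≤ 12 * b * v := Nat.mul_le_mul (Nat.mul_le_mul_left _ hb) hv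
  unfold num
  rw [ArithmeticFunction.cardFactors_mul (by
      have : 12 * b * v - 1 ≠ 0 := by omega
      positivity) (by omega),
    ArithmeticFunction.cardFactors_mul (by positivity) (by omega),
    ArithmeticFunction.cardFactors_mul (by positivity) (by omega)]

/-- the linear forms are `8 m + s`, `12 b (8 m + s) - 1` and `12 b (8 m + s) + 1` -/
theorem forms (b s m : ℕ) (hb : 1 ≤ b) (hs : 1 ≤ s) (i : Fin 3) :
    ((![8, 96 * b, 96 * b] i : ℕ) : ℤ) * m + (![(s : ℤ), 12 * b * s - 1, 12 * b * s + 1] i) =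
      ((![8 * m + s, 12 * b * (8 * m + s) - 1, 12 * b * (8 * m + s) + 1] i : ℕ) : ℤ) := by
  have h0 : 0 < 12 * b * (8 * m + s) := by positivity
  have h1 : ((12 * b * (8 * m + s) - 1 : ℕ) : ℤ) = 12 * b * (8 * m + s) - 1 := by
    rw [Nat.cast_sub (by omega)]
    push_cast
    ring
  fin_cases i
  · simp
  · simp only [Fin.mk_one, Matrix.cons_val_one, Matrix.cons_val_zero]
    rw [h1]
    push_cast
    ring
  · simp
    ring

/-- the natural linear forms -/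
theorem forms' (b s m : ℕ) (hb : 1 ≤ b) (hs : 1 ≤ s) (i : Fin 3) :
    (![8, 96 * b, 96 * b] i : ℕ) * m + (![s, 12 * b * s - 1, 12 * b * s + 1] i : ℕ) =
      (![8 * m + s, 12 * b * (8 * m + s) - 1, 12 * b * (8 * m + s) + 1] i : ℕ) := by
  have h0 : 0 < 12 * b * s := by positivity
  have h1 : 12 * b * (8 * m + s) = 96 * b * m + 12 * b * s := by ring
  fin_cases i
  · simp
  · simp only [Fin.mk_one, Matrix.cons_val_one, Matrix.cons_val_zero]
    omega
  · simp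
    ring

theorem pow_bound (r r' m v : ℕ) (hr : 1 ≤ r) (hrr : r + 1 ≤ r') (hm : 1 ≤ m) (hv1 : 1 ≤ v) (hv : v ≤ 16 * m)
    (h16 : (16 : ℝ) ≤ (m : ℝ) ^ (1 / (r : ℝ))) : (v : ℝ) ^ (1 / (r' : ℝ)) ≤ (m : ℝ) ^ (1 / (r : ℝ)) := by
  have hr0 : (0 : ℝ) < r := by exact_mod_cast hr
  have hm0 : (0 : ℝ) < m := by exact_mod_cast hm
  have hv1' : (1 : ℝ) ≤ v := by exact_mod_cast hv1
  have hr1 : (0 : ℝ) < (r : ℝ) + 1 := by linarith
  have h1 : (v : ℝ) ^ (1 / (r' : ℝ)) ≤ (v : ℝ) ^ (1 / ((r : ℝ) + 1)) := by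
    apply Real.rpow_le_rpow_of_exponent_le hv1'
    apply one_div_le_one_div_of_le hr1
    exact_mod_cast hrr
  refine h1.trans ?_
  have h2 : (v : ℝ) ≤ (m : ℝ) ^ (((r : ℝ) + 1) / r) := by
    calc (v : ℝ) ≤ 16 * m := by exact_mod_cast hv
      _ ≤ (m : ℝ) ^ (1 / (r : ℝ)) * m := mul_le_mul_of_nonneg_right h16 hm0.le
      _ = (m : ℝ) ^ (1 / (r : ℝ)) * (m : ℝ) ^ (1 : ℝ) := by rw [Real.rpow_one]
      _ = (m : ℝ) ^ (((r : ℝ) + 1) / r) := by
          rw [← Real.rpow_add hm0]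
          congr 1
          field_simp
          ring
  calc (v : ℝ) ^ (1 / ((r : ℝ) + 1)) ≤ ((m : ℝ) ^ (((r : ℝ) + 1) / r)) ^ (1 / ((r : ℝ) + 1)) :=
        Real.rpow_le_rpow (by linarith) h2 (by positivity)
    _ = (m : ℝ) ^ (1 / (r : ℝ)) := by
        rw [← Real.rpow_mul hm0.le]
        congr 1
        field_simp

/-- one parameter -/
theorem good_of (b t s r₀ r m Z : ℕ) (h : Adm b t) (hs : 1 ≤ s) (hs8 : s < 8) (hst : 5 * (b * s) % 8 = t) (hr₀ : 1 ≤ r₀)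
    (hr : 3 * r₀ + ArithmeticFunction.cardFactors (3 * b) + 1 ≤ r) (hm : 1 ≤ m)
    (h16 : (16 : ℝ) ≤ (m : ℝ) ^ (1 / (r₀ : ℝ))) (h3b : ((3 * b : ℕ) : ℝ) ≤ (m : ℝ) ^ (1 / (r₀ : ℝ)))
    (hZ : (Z : ℝ) ≤ (m : ℝ) ^ (1 / (r₀ : ℝ)))
    (h1 : ∀ i : Fin 3, ∀ p : ℕ, p.Prime → (p : ℤ) ∣ ((![8, 96 * b, 96 * b] i : ℕ) : ℤ) * m +
      (![(s : ℤ), 12 * b * s - 1, 12 * b * s + 1] i) → (m : ℝ) ^ (1 / (r₀ : ℝ)) < (p : ℝ))
    (h2 : ∀ i : Fin 3, (((![8, 96 * b, 96 * b] i : ℕ) : ℤ) * m +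
      (![(s : ℤ), 12 * b * s - 1, 12 * b * s + 1] i)).natAbs.primeFactorsList.length ≤ r₀)
    (h3 : ∀ i : Fin 3, ¬ ∃ q : ℕ, q.Prime ∧ Z < q ∧
      q ^ 2 ∣ (![8, 96 * b, 96 * b] i : ℕ) * m + (![s, 12 * b * s - 1, 12 * b * s + 1] i : ℕ)) :
    8 * m + s ∈ Good b t r := by
  have hb1 : 1 ≤ b := Nat.one_le_iff_ne_zero.2 h.1.ne_zero
  simp only [forms b s m hb1 hs] at h1 h2
  simp only [forms' b s m hb1 hs] at h3
  obtain ⟨v, hv⟩ : ∃ v, v = 8 * m + s := ⟨_, rfl⟩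
  rw [← hv] at h1 h2 h3 ⊢
  have hv1 : 1 ≤ v := by omega
  have H : ∀ i : Fin 3, ∀ p : ℕ, p.Prime → p ∣ (![v, 12 * b * v - 1, 12 * b * v + 1] i : ℕ) →
      (m : ℝ) ^ (1 / (r₀ : ℝ)) < (p : ℝ) := fun i p hp hd => h1 i p hp (Int.natCast_dvd_natCast.2 hd)
  have HS : ∀ i : Fin 3, Squarefree (![v, 12 * b * v - 1, 12 * b * v + 1] i : ℕ) := by
    intro i
    rw [Nat.squarefree_iff_prime_squarefree]
    intro p hp hd
    refine h3 i ⟨p, hp, ?_, ?_⟩
    · have := H i p hp ((Dvd.intro _ rfl).trans hd)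
      exact_mod_cast hZ.trans_lt this
    · rw [pow_two]
      exact hd
  have hO : ∀ i : Fin 3, ArithmeticFunction.cardFactors (![v, 12 * b * v - 1, 12 * b * v + 1] i : ℕ) ≤ r₀ := by
    intro i
    have := h2 i
    rw [Int.natAbs_natCast] at this
    rw [ArithmeticFunction.cardFactors_apply]
    exact this
  have hsf3 : Squarefree (3 * b) := by
    rw [Nat.squarefree_mul_iff]
    exact ⟨(Nat.Prime.coprime_iff_not_dvd Nat.prime_three).2 h.2.1, Nat.prime_three.squarefree, h.1⟩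
  refine ⟨?_, ?_, ?_, ?_⟩
  · rw [num_mod b v hb1 hv1, ← hst, hv]
    have : b * (8 * m + s) = 8 * (b * m) + b * s := by ring
    rw [this]
    omega
  · refine sqf_num b v hb1 hv1 hsf3 (HS 0) (HS 1) (HS 2) ?_
    apply Nat.coprime_of_dvd
    intro p hp hpb hpv
    have h4 := H 0 p hp hpv
    have h5 := Nat.le_of_dvd (by positivity) hpb
    have h6 : (p : ℝ) ≤ ((3 * b : ℕ) : ℝ) := by exact_mod_cast h5
    linarith
  · rw [Omega_num b v hb1 hv1]
    have a0 : ArithmeticFunction.cardFactors v ≤ r₀ := hO 0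
    have a1 : ArithmeticFunction.cardFactors (12 * b * v - 1) ≤ r₀ := hO 1
    have a2 : ArithmeticFunction.cardFactors (12 * b * v + 1) ≤ r₀ := hO 2
    omega
  · intro q hq hd
    have h4 : (m : ℝ) ^ (1 / (r₀ : ℝ)) < (q : ℝ) := by
      rcases hd with hd | hd | hd
      · exact H 0 q hq hd
      · exact H 1 q hq hd
      · exact H 2 q hq hd
    exact (pow_bound r₀ r m v hr₀ (by omega) hm hv1 (by omega) h16).trans_lt h4

end Pool.Agent.X58.CN
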