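import Pool.Agent.TH977.PW.Inst
import Pool.Agent.X58.CN.Low

set_option autoImplicit false

/-!
# The number of the good parameters: the lower bound
-/

namespace Pool.Agent.X58.CN

open Finset Filter Polynomial
open Pool.Agent.TH977.PW
open Pool.Agent.W182.PW

theorem cop_lin (b s : ℕ) (hs1 : s % 2 = 1) (i : Fin 3) :
    IsCoprime ((![8, 96 * b, 96 * b] i : ℕ) : ℤ) (![(s : ℤ), 12 * b * s - 1, 12 * b * s + 1] i) := by
  have e : (((96 * b : ℕ) : ℤ)) = 2 ^ 3 * (12 * b) := by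
    push_cast
    ring
  fin_cases i
  · show IsCoprime ((8 : ℕ) : ℤ) (s : ℤ)
    rw [Nat.isCoprime_iff_coprime]
    have h : Nat.Coprime (2 ^ 3) s := Nat.Coprime.pow_left 3 (Nat.coprime_two_left.2 (Nat.odd_iff.2 hs1))
    exact h
  · show IsCoprime ((96 * b : ℕ) : ℤ) (12 * b * s - 1)
    rw [e]
    refine IsCoprime.mul_left (IsCoprime.pow_left ⟨6 * b * s, -1, by ring⟩) ⟨s, -1, by ring⟩
  · show IsCoprime ((96 * b : ℕ) : ℤ) (12 * b * s + 1)
    rw [e]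
    refine IsCoprime.mul_left (IsCoprime.pow_left ⟨-6 * b * s, 1, by ring⟩) ⟨-s, 1, by ring⟩

theorem inj_lin (b s : ℕ) (_hb : 1 ≤ b) (i j : Fin 3) (h1 : (![8, 96 * b, 96 * b] i : ℕ) = ![8, 96 * b, 96 * b] j)
    (h2 : (![(s : ℤ), 12 * b * s - 1, 12 * b * s + 1] i) = ![(s : ℤ), 12 * b * s - 1, 12 * b * s + 1] j) :
    i = j := by
  fin_cases i <;> fin_cases j <;> simp at h1 h2 ⊢ <;> omega

open Classical in
theorem mem_N (A : Set ℕ) (a b : ℕ) : ∃ T : Finset ℕ, (∀ m, m ∈ T ↔ (a < m ∧ m ≤ b) ∧ m ∈ A) ∧ T.card = N A a b :=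
  ⟨(Finset.Ioc a b).filter (fun m => m ∈ A), fun m => by rw [mem_filter, mem_Ioc], rfl⟩

/-- short intervals -/
theorem lowS (b t : ℕ) (h : Adm b t) (θ : ℝ) (hθ : 1 / 2 < θ) (_hθ1 : θ ≤ 1) :
    ∃ r₀ : ℕ, 2 ≤ r₀ ∧ ∀ r : ℕ, r₀ ≤ r → ∃ δ : ℝ, 0 < δ ∧ ∀ᶠ X : ℕ in atTop, ∀ W : ℕ, (X : ℝ) ^ θ ≤ W → W ≤ X →
    δ * W / Real.log X ^ 3 ≤ ((Good b t r ∩ Set.Ioc X (X + W)).ncard : ℝ) := by
  classical
  obtain ⟨s, hs8, hs1, hst⟩ := exS b t h
  have hb1 : 1 ≤ b := Nat.one_le_iff_ne_zero.2 h.1.ne_zero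
  have hs : 1 ≤ s := by omega
  obtain ⟨a, ha⟩ : ∃ a : Fin 3 → ℕ, a = ![8, 96 * b, 96 * b] := ⟨_, rfl⟩
  obtain ⟨c, hc⟩ : ∃ c : Fin 3 → ℤ, c = ![(s : ℤ), 12 * b * s - 1, 12 * b * s + 1] := ⟨_, rfl⟩
  obtain ⟨c', hc'⟩ : ∃ c' : Fin 3 → ℕ, c' = ![s, 12 * b * s - 1, 12 * b * s + 1] := ⟨_, rfl⟩
  have hapos : ∀ i, 0 < a i := by
    intro i
    rw [ha]
    fin_cases i <;> simp <;> omega
  have hale : ∀ i, a i ≤ 96 * b := by
    intro i
    rw [ha]
    fin_cases i <;> simp <;> omega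
  have hc'le : ∀ i, c' i ≤ 12 * b * s + 1 := by
    intro i
    rw [hc']
    fin_cases i
    · show s ≤ 12 * b * s + 1
      have : 1 * s ≤ 12 * b * s := Nat.mul_le_mul_right s (by omega)
      omega
    · show 12 * b * s - 1 ≤ 12 * b * s + 1
      omega
    · exact le_refl _
  obtain ⟨r0, hr0, hsv⟩ := final_lin a c hapos
    (fun i => by rw [ha, hc]; exact cop_lin b s hs1 i)
    (fun i j h1 h2 => by rw [ha] at h1; rw [hc] at h2; exact inj_lin b s hb1 i j h1 h2)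
    (fun p hp => by rw [ha, hc]; exact adm_lin b s hs1 p hp)
    (fun r => {m | ∀ i, ∀ p : ℕ, p.Prime → (p : ℤ) ∣ (a i : ℤ) * m + c i → (m : ℝ) ^ (1 / (r : ℝ)) < (p : ℝ)})
    (fun r => {m | (∀ i, ∀ p : ℕ, p.Prime → (p : ℤ) ∣ (a i : ℤ) * m + c i → (m : ℝ) ^ (1 / (r : ℝ)) < (p : ℝ)) ∧
      ∀ i, ((a i : ℤ) * m + c i).natAbs.primeFactorsList.length ≤ r}) 3 (by simp)
    (fun r m _ h => h) (fun r m _ h1 h2 => ⟨h1, h2⟩) (1 / 2) (by norm_num) (by norm_num)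
  obtain ⟨κ, hκ, hlow⟩ := (hsv r0 le_rfl).1
  clear hsv
  refine ⟨3 * r0 + ArithmeticFunction.cardFactors (3 * b) + 1, by omega, fun r hr => ⟨κ / 64, by positivity, ?_⟩⟩
  obtain ⟨η, hη⟩ : ∃ η : ℝ, η = 1 / (r0 : ℝ) := ⟨_, rfl⟩
  have hr0r : (2 : ℝ) ≤ r0 := by exact_mod_cast hr0
  have hη0 : 0 < η := by rw [hη]; positivity
  have hη1 : η ≤ 1 := by
    rw [hη, div_le_one (by linarith)]
    linarith
  obtain ⟨C, hC⟩ : ∃ C : ℝ, C = 96 * b + (12 * b * s + 1) := ⟨_, rfl⟩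
  have hC1 : 1 ≤ C := by
    rw [hC]
    have : (0 : ℝ) ≤ 96 * b := by positivity
    have : (0 : ℝ) ≤ 12 * b * s := by positivity
    linarith
  have ht : Tendsto (fun X : ℕ => X / 8) atTop atTop := Nat.tendsto_div_const_atTop (by norm_num)
  have hbig : ∀ᶠ X : ℕ in atTop, (96 * b + 16 : ℝ) ≤ (X : ℝ) ^ η :=
    ((tendsto_rpow_atTop hη0).comp tendsto_natCast_atTop_atTop).eventually_ge_atTop _
  have hθ0 : 0 < θ - 1 / 2 := by linarith
  have hbig2 : ∀ᶠ X : ℕ in atTop, (64 : ℝ) ≤ (X : ℝ) ^ (θ - 1 / 2) :=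
    ((tendsto_rpow_atTop hθ0).comp tendsto_natCast_atTop_atTop).eventually_ge_atTop _
  filter_upwards [ht.eventually hlow, ht.eventually hbig, hbig2,
    logk η (κ / (64 * 24)) hη0 (by positivity) 3, logk (θ - 1 / 2) (κ / (64 * 6 * C)) hθ0 (by positivity) 3,
    eventually_ge_atTop 64] with X hX hXb hX2 hL1 hL2 hX64 W hWθ hWX
  obtain ⟨X', hX'⟩ : ∃ X', X' = X / 8 := ⟨_, rfl⟩
  rw [← hX'] at hX hXb
  obtain ⟨Y, hY⟩ : ∃ Y, Y = W / 8 - 1 := ⟨_, rfl⟩
  have hX'8 : 8 ≤ X' := by omega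
  have hXr : (64 : ℝ) ≤ X := by exact_mod_cast hX64
  have hX'r : (8 : ℝ) ≤ X' := by exact_mod_cast hX'8
  have hs0 : 0 < Real.sqrt X := Real.sqrt_pos.2 (by linarith)
  have hsqX : (8 : ℝ) ≤ Real.sqrt X := by
    rw [show (8 : ℝ) = Real.sqrt 64 by
      rw [show (64 : ℝ) = 8 ^ 2 by norm_num, Real.sqrt_sq (by norm_num)]]
    exact Real.sqrt_le_sqrt hXr
  have hXθ : (X : ℝ) ^ θ = (X : ℝ) ^ (θ - 1 / 2) * Real.sqrt X := by
    rw [Real.sqrt_eq_rpow, ← Real.rpow_add (by linarith)]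
    congr 1
    ring
  have hW64 : 64 * Real.sqrt X ≤ W := by
    refine le_trans ?_ hWθ
    rw [hXθ]
    exact mul_le_mul_of_nonneg_right hX2 hs0.le
  have hWr : (512 : ℝ) ≤ W := by linarith
  have hWn : 512 ≤ W := by exact_mod_cast hWr
  have hYup : (Y : ℝ) ≤ W / 8 := by
    have : Y * 8 ≤ W := by omega
    have h2 : ((Y * 8 : ℕ) : ℝ) ≤ W := by exact_mod_cast this
    push_cast at h2
    linarith
  have hYlo : (W : ℝ) / 16 ≤ Y := by
    have : W ≤ Y * 8 + 16 := by omega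
    have h2 : (W : ℝ) ≤ ((Y * 8 + 16 : ℕ) : ℝ) := by exact_mod_cast this
    push_cast at h2
    linarith
  have hX'up : (X' : ℝ) ≤ X / 8 := by
    have : X' * 8 ≤ X := by omega
    have h2 : ((X' * 8 : ℕ) : ℝ) ≤ X := by exact_mod_cast this
    push_cast at h2
    linarith
  have hX'lo : (X : ℝ) / 8 - 1 ≤ X' := by
    have : X ≤ X' * 8 + 8 := by omega
    have h2 : (X : ℝ) ≤ ((X' * 8 + 8 : ℕ) : ℝ) := by exact_mod_cast this
    push_cast at h2
    linarith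
  have hN := hX Y (by
    rw [← Real.sqrt_eq_rpow]
    calc Real.sqrt X' ≤ Real.sqrt X := Real.sqrt_le_sqrt (by linarith)
      _ ≤ Y := by linarith) (by omega)
  obtain ⟨Z, hZ⟩ : ∃ Z, Z = ⌊(X' : ℝ) ^ η⌋₊ := ⟨_, rfl⟩
  have hb0 : (0 : ℝ) ≤ 96 * b := by positivity
  have hZle : (Z : ℝ) ≤ (X' : ℝ) ^ η := by
    rw [hZ]
    exact Nat.floor_le (by linarith)
  have hZlt : (X' : ℝ) ^ η < Z + 1 := by
    rw [hZ]
    exact Nat.lt_floor_add_one _
  have hZb : 96 * b ≤ Z := by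
    have : ((96 * b : ℕ) : ℝ) < ((Z + 1 : ℕ) : ℝ) := by
      push_cast
      linarith
    have := Nat.cast_lt.1 this
    omega
  have hZ1 : 1 ≤ Z := by omega
  have hXη : 0 < (X : ℝ) ^ η := Real.rpow_pos_of_pos (by linarith) _
  have hlX : 0 < Real.log X := Real.log_pos (by linarith)
  have hlX3 : 0 < Real.log X ^ 3 := by positivity
  -- the bad arguments
  have hbadi : ∀ i : Fin 3, (((Ioc X' (X' + Y)).filter
      (fun m => ∃ q : ℕ, q.Prime ∧ Z < q ∧ q ^ 2 ∣ a i * m + c' i)).card : ℝ) ≤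
      4 * (W : ℝ) / (X : ℝ) ^ η + C * Real.sqrt X := by
    intro i
    refine (bad (a i) (c' i) Z X' Y (hapos i) hZ1 ((hale i).trans hZb)).trans ?_
    have hZr : (0 : ℝ) < Z := by exact_mod_cast hZ1
    have h1 : (Y : ℝ) / Z ≤ 4 * (W : ℝ) / (X : ℝ) ^ η := by
      rw [div_le_div_iff₀ hZr hXη]
      have h2 : (X : ℝ) ^ η ≤ 16 * (X' : ℝ) ^ η := by
        calc (X : ℝ) ^ η ≤ (16 * X' : ℝ) ^ η := by
              apply Real.rpow_le_rpow (by linarith) _ hη0.le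
              linarith
          _ = (16 : ℝ) ^ η * (X' : ℝ) ^ η := Real.mul_rpow (by norm_num) (by linarith)
          _ ≤ 16 * (X' : ℝ) ^ η := by
              apply mul_le_mul_of_nonneg_right _ (by positivity)
              calc (16 : ℝ) ^ η ≤ (16 : ℝ) ^ (1 : ℝ) := Real.rpow_le_rpow_of_exponent_le (by norm_num) hη1
                _ = 16 := Real.rpow_one _
      have h3 : (X' : ℝ) ^ η ≤ 2 * Z := by
        have : (1 : ℝ) ≤ Z := by exact_mod_cast hZ1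
        linarith
      calc (Y : ℝ) * (X : ℝ) ^ η ≤ (W / 8) * (16 * (2 * Z)) := by
            apply mul_le_mul hYup (by linarith) hXη.le (by linarith)
        _ = 4 * W * Z := by ring
    have h4 : ((Nat.sqrt (a i * (X' + Y) + c' i) : ℕ) : ℝ) ≤ C * Real.sqrt X := by
      refine Real.nat_sqrt_le_real_sqrt.trans ?_
      have h5 : ((a i * (X' + Y) + c' i : ℕ) : ℝ) ≤ C ^ 2 * X := by
        have h6 : a i * (X' + Y) + c' i ≤ 96 * b * X + (12 * b * s + 1) := by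
          have h7 : a i * (X' + Y) ≤ 96 * b * X := Nat.mul_le_mul (hale i) (by omega)
          have := hc'le i
          omega
        have h8 : ((a i * (X' + Y) + c' i : ℕ) : ℝ) ≤ ((96 * b * X + (12 * b * s + 1) : ℕ) : ℝ) := by
          exact_mod_cast h6
        refine h8.trans ?_
        push_cast
        have h9 : (12 * b * s + 1 : ℝ) ≤ (12 * b * s + 1) * X := by
          have : (0 : ℝ) ≤ 12 * b * s := by positivity
          nlinarith
        calc (96 : ℝ) * b * X + (12 * b * s + 1) ≤ C * X := by rw [hC]; linarith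
          _ ≤ C ^ 2 * X := by
              apply mul_le_mul_of_nonneg_right _ (by linarith)
              nlinarith
      calc Real.sqrt ((a i * (X' + Y) + c' i : ℕ) : ℝ) ≤ Real.sqrt (C ^ 2 * X) := Real.sqrt_le_sqrt h5
        _ = C * Real.sqrt X := by
            rw [Real.sqrt_mul (by positivity), Real.sqrt_sq (by linarith)]
    linarith
  obtain ⟨B, hB⟩ : ∃ B : Finset ℕ, B = (univ : Finset (Fin 3)).biUnion (fun i => (Ioc X' (X' + Y)).filter
      (fun m => ∃ q : ℕ, q.Prime ∧ Z < q ∧ q ^ 2 ∣ a i * m + c' i)) := ⟨_, rfl⟩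
  have hBcard : (B.card : ℝ) ≤ κ / 64 * W / Real.log X ^ 3 := by
    have h1 : (B.card : ℝ) ≤ ∑ i : Fin 3, (((Ioc X' (X' + Y)).filter
        (fun m => ∃ q : ℕ, q.Prime ∧ Z < q ∧ q ^ 2 ∣ a i * m + c' i)).card : ℝ) := by
      rw [hB]
      exact_mod_cast card_biUnion_le
    refine (h1.trans (sum_le_sum (fun i _ => hbadi i))).trans ?_
    rw [sum_const, card_univ, Fintype.card_fin, nsmul_eq_mul]
    have h2 : 4 * (W : ℝ) / (X : ℝ) ^ η ≤ κ / (64 * 6) * W / Real.log X ^ 3 := by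
      rw [div_le_div_iff₀ hXη hlX3]
      calc 4 * (W : ℝ) * Real.log X ^ 3 ≤ 4 * W * (κ / (64 * 24) * (X : ℝ) ^ η) :=
            mul_le_mul_of_nonneg_left hL1 (by positivity)
        _ = κ / (64 * 6) * W * (X : ℝ) ^ η := by ring
    have h3 : C * Real.sqrt X ≤ κ / (64 * 6) * W / Real.log X ^ 3 := by
      rw [le_div_iff₀ hlX3]
      calc C * Real.sqrt X * Real.log X ^ 3 ≤ C * Real.sqrt X * (κ / (64 * 6 * C) * (X : ℝ) ^ (θ - 1 / 2)) :=
            mul_le_mul_of_nonneg_left hL2 (by positivity)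
        _ = κ / (64 * 6) * ((X : ℝ) ^ (θ - 1 / 2) * Real.sqrt X) := by
            have : C ≠ 0 := by positivity
            field_simp
        _ ≤ κ / (64 * 6) * W := by
            rw [← hXθ]
            exact mul_le_mul_of_nonneg_left hWθ (by positivity)
    have e : κ / 64 * W / Real.log X ^ 3 = 6 * (κ / (64 * 6) * W / Real.log X ^ 3) := by ring
    rw [e]
    push_cast
    linarith
  obtain ⟨T, hT⟩ : ∃ T : Finset ℕ, (∀ m, m ∈ T ↔ (X' < m ∧ m ≤ X' + Y) ∧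
      ((∀ i, ∀ p : ℕ, p.Prime → (p : ℤ) ∣ (a i : ℤ) * m + c i → (m : ℝ) ^ (1 / (r0 : ℝ)) < (p : ℝ)) ∧
      ∀ i, ((a i : ℤ) * m + c i).natAbs.primeFactorsList.length ≤ r0)) ∧
      κ * Y / Real.log X' ^ 3 ≤ T.card := by
    obtain ⟨T, t1, t2⟩ := mem_N _ _ _
    rw [← t2] at hN
    exact ⟨T, t1, hN⟩
  obtain ⟨hT1, hT2⟩ := hT
  have hfin : (Good b t r ∩ Set.Ioc X (X + W)).Finite := (Set.finite_Ioc X (X + W)).subset Set.inter_subset_right
  have hcard : (T \ B).card ≤ (Good b t r ∩ Set.Ioc X (X + W)).ncard := by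
    rw [← Finset.card_image_of_injective (T \ B) (f := fun m => 8 * m + s) (fun x y hxy => by
      have : 8 * x + s = 8 * y + s := hxy
      omega), ← Set.ncard_coe_finset]
    apply Set.ncard_le_ncard _ hfin
    intro v hv
    rw [Finset.mem_coe, mem_image] at hv
    obtain ⟨m, hm, rfl⟩ := hv
    rw [Finset.mem_sdiff, hT1] at hm
    obtain ⟨⟨⟨hm1, hm2⟩, hm3, hm4⟩, hm5⟩ := hm
    have hmX : (X' : ℝ) ^ η ≤ (m : ℝ) ^ η := by
      apply Real.rpow_le_rpow (by linarith) _ hη0.le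
      exact_mod_cast hm1.le
    constructor
    · rw [ha, hc] at hm3 hm4
      rw [← hη] at hm3
      refine good_of b t s r0 r m Z h hs hs8 hst (by omega) hr (by omega) ?_ ?_ ?_ ?_ hm4 ?_
      · rw [← hη]
        linarith
      · rw [← hη]
        push_cast
        have : (0 : ℝ) ≤ b := Nat.cast_nonneg _
        linarith
      · rw [← hη]
        exact hZle.trans hmX
      · rw [← hη]
        exact hm3
      · intro i hi
        apply hm5
        rw [hB, mem_biUnion]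
        refine ⟨i, mem_univ _, ?_⟩
        rw [mem_filter, mem_Ioc]
        rw [ha, hc']
        exact ⟨⟨hm1, hm2⟩, hi⟩
    · rw [Set.mem_Ioc]
      omega
  have hsub : T.card ≤ (T \ B).card + B.card := by
    exact Finset.card_le_card_sdiff_add_card
  have h1 : (T.card : ℝ) ≤ ((Good b t r ∩ Set.Ioc X (X + W)).ncard : ℝ) + B.card := by
    have h2 : T.card ≤ (Good b t r ∩ Set.Ioc X (X + W)).ncard + B.card := by omega
    exact_mod_cast h2
  have hlX' : 0 < Real.log X' := Real.log_pos (by linarith)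
  have hlle : Real.log X' ≤ Real.log X := Real.log_le_log (by linarith) (by linarith)
  have h3 : κ / 32 * W / Real.log X ^ 3 ≤ κ * Y / Real.log X' ^ 3 := by
    calc κ / 32 * W / Real.log X ^ 3 ≤ κ / 32 * W / Real.log X' ^ 3 := by
          apply div_le_div_of_nonneg_left (by positivity) (by positivity)
          exact pow_le_pow_left₀ hlX'.le hlle 3
      _ ≤ κ * Y / Real.log X' ^ 3 := by
          apply div_le_div_of_nonneg_right _ (by positivity)
          nlinarith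
  have e : κ / 32 * W / Real.log X ^ 3 = κ / 64 * W / Real.log X ^ 3 + κ / 64 * W / Real.log X ^ 3 := by ring
  linarith

/-- intervals `(A, A + X]`, `A ^ θ ≤ X ≤ A` -/
theorem lowA (b t : ℕ) (h : Adm b t) (θ : ℝ) (hθ : 1 / 2 < θ) (hθ1 : θ ≤ 1) :
    ∃ r₀ : ℕ, 2 ≤ r₀ ∧ ∀ r : ℕ, r₀ ≤ r → ∃ δ : ℝ, 0 < δ ∧ ∀ᶠ X : ℕ in atTop, ∀ A : ℕ, X ≤ A → (A : ℝ) ^ θ ≤ X →
    δ * X / Real.log X ^ 3 ≤ ((Good b t r ∩ Set.Ioc A (A + X)).ncard : ℝ) := by
  obtain ⟨r₀, hr₀, h1⟩ := lowS b t h θ hθ hθ1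
  refine ⟨r₀, hr₀, fun r hr => ?_⟩
  obtain ⟨δ, hδ, h2⟩ := h1 r hr
  refine ⟨δ / 8, by positivity, ?_⟩
  obtain ⟨A₀, h3⟩ := eventually_atTop.1 h2
  filter_upwards [eventually_ge_atTop A₀, eventually_ge_atTop 3] with X hX hX3 A hXA hAX
  refine le_trans ?_ (h3 A (hX.trans hXA) X hAX hXA)
  have hXr : (3 : ℝ) ≤ X := by exact_mod_cast hX3
  have hAr : (X : ℝ) ≤ A := by exact_mod_cast hXA
  have hl : 0 < Real.log X := Real.log_pos (by linarith)
  have hlA : 0 < Real.log A := Real.log_pos (by linarith)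
  have h4 : Real.log A ≤ 2 * Real.log X := by
    have h5 : θ * Real.log A ≤ Real.log X := by
      rw [← Real.log_rpow (by linarith)]
      exact Real.log_le_log (Real.rpow_pos_of_pos (by linarith) _) hAX
    nlinarith
  calc δ / 8 * X / Real.log X ^ 3 = δ * X / (2 * Real.log X) ^ 3 := by
        field_simp
        norm_num
    _ ≤ δ * X / Real.log A ^ 3 := by
        apply div_le_div_of_nonneg_left (by positivity) (by positivity)
        exact pow_le_pow_left₀ hlA.le h4 3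

end Pool.Agent.X58.CN
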