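import Pool.Agent.X69.Ric.PatC
import Pool.Agent.X58.CN.Low2

set_option autoImplicit false

/-!
# Patterns in the sets of the parameters of squarefree congruent numbers
-/

namespace Pool.Agent.X58.CN

open Finset Filter Polynomial
open Pool.Agent.X69.Ric
open Pool.Agent.TH977.PW
open Pool.Agent.W182.PW
open Pool.Agent.W123.RU.Poly (Sys)

/-- the system of the polynomials -/
noncomputable def F (b : ℕ) : Fin 3 → ℤ[X] :=
  fun i => lin ((![1, 12 * b, 12 * b] : Fin 3 → ℕ) i) ((![0, -1, 1] : Fin 3 → ℤ) i)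

theorem F_sys (b : ℕ) (hb : 1 ≤ b) : Sys (F b) := by
  refine sys_lin _ _ ?_ ?_ ?_ ?_
  · intro i
    fin_cases i <;> simp <;> omega
  · intro i
    fin_cases i
    · show IsCoprime ((1 : ℕ) : ℤ) 0
      exact ⟨1, 0, by norm_num⟩
    · show IsCoprime ((12 * b : ℕ) : ℤ) (-1)
      exact ⟨0, -1, by norm_num⟩
    · show IsCoprime ((12 * b : ℕ) : ℤ) 1
      exact ⟨0, 1, by norm_num⟩
  · intro i j h1 h2
    fin_cases i <;> fin_cases j <;> simp at h1 h2 ⊢
  · intro p hp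
    haveI : Fact p.Prime := ⟨hp⟩
    obtain ⟨y, hy0, hy1, hy2⟩ := inv_ex p ((12 * b : ℕ) : ZMod p) (by
      intro h3
      have h4 : p = 2 ∨ p = 3 := by
        have := hp.two_le
        omega
      rw [ZMod.natCast_eq_zero_iff]
      rcases h4 with h4 | h4
      · rw [h4]
        exact ⟨6 * b, by ring⟩
      · rw [h4]
        exact ⟨4 * b, by ring⟩)
    obtain ⟨m, hm⟩ : ∃ m : ℕ, ((m : ℕ) : ZMod p) = y := ⟨y.val, by
      rw [ZMod.natCast_val, ZMod.cast_id]⟩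
    refine ⟨m, fun i => ?_⟩
    rw [← ZMod.intCast_zmod_eq_zero_iff_dvd]
    rw [← hm] at hy0 hy1 hy2
    fin_cases i
    · intro h
      apply hy0
      simp at h
      exact h
    · intro h
      apply hy1
      simp only [Fin.mk_one, Matrix.cons_val_one, Matrix.cons_val_zero] at h
      push_cast at h ⊢
      linear_combination h
    · intro h
      apply hy2
      simp at h
      push_cast at h ⊢
      linear_combination h

theorem F_dv (b q v : ℕ) (hb : 1 ≤ b) (hv : 1 ≤ v) : Dv b q v ↔ ∃ i, (q : ℤ) ∣ (F b i).eval (v : ℤ) := by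
  have h0 : 0 < 12 * b * v := by positivity
  have e0 : (F b 0).eval (v : ℤ) = ((v : ℕ) : ℤ) := by
    show (lin 1 0).eval (v : ℤ) = _
    rw [lin_eval]
    push_cast
    ring
  have e1 : (F b 1).eval (v : ℤ) = ((12 * b * v - 1 : ℕ) : ℤ) := by
    show (lin (12 * b) (-1)).eval (v : ℤ) = _
    rw [lin_eval, Nat.cast_sub (by omega)]
    push_cast
    ring
  have e2 : (F b 2).eval (v : ℤ) = ((12 * b * v + 1 : ℕ) : ℤ) := by
    show (lin (12 * b) 1).eval (v : ℤ) = _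
    rw [lin_eval]
    push_cast
    ring
  constructor
  · rintro (h | h | h)
    · exact ⟨0, by rw [e0]; exact Int.natCast_dvd_natCast.2 h⟩
    · exact ⟨1, by rw [e1]; exact Int.natCast_dvd_natCast.2 h⟩
    · exact ⟨2, by rw [e2]; exact Int.natCast_dvd_natCast.2 h⟩
  · rintro ⟨i, h⟩
    fin_cases i
    · left
      have h' : (q : ℤ) ∣ (F b 0).eval (v : ℤ) := h
      rw [e0] at h'
      exact Int.natCast_dvd_natCast.1 h'
    · right
      left
      have h' : (q : ℤ) ∣ (F b 1).eval (v : ℤ) := h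
      rw [e1] at h'
      exact Int.natCast_dvd_natCast.1 h'
    · right
      right
      have h' : (q : ℤ) ∣ (F b 2).eval (v : ℤ) := h
      rw [e2] at h'
      exact Int.natCast_dvd_natCast.1 h'

theorem good_rough (b t r A X : ℕ) (hr : 1 ≤ r) (hA : X ≤ A) (S : Set ℕ) (hS : S ⊆ Good b t r ∩ Set.Ioc A (A + X)) :
    ∀ n ∈ S, ∀ q : ℕ, q.Prime → Dv b q n → (X : ℝ) ^ (1 / (r : ℝ)) < q := by
  intro n hn q hq hd
  have h1 := hS hn
  have h2 := h1.1.2.2.2 q hq hd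
  refine lt_of_le_of_lt ?_ h2
  have h3 := h1.2.1
  apply Real.rpow_le_rpow (Nat.cast_nonneg _) _ (by positivity)
  exact_mod_cast (hA.trans h3.le)

/-- **Typical parameters.** -/
theorem typ (b t r : ℕ) (hb : 1 ≤ b) (hr : 1 ≤ r) (m K : ℕ) (hK : 1 ≤ K) (ε : ℝ) (hε : 0 < ε) :
    ∃ c : ℝ, 0 < c ∧ ∃ B : ℕ, ∀ᶠ X : ℕ in atTop, ∀ A D : ℕ, X ≤ A →
    Real.log X ^ B ≤ D → D ≤ X → ∀ S : Set ℕ, S ⊆ Good b t r ∩ Set.Ioc A (A + X) →
    ({n : ℕ | n ∈ S ∧ (patR K m D S n : ℝ) <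
      c * ((D : ℝ) ^ m / Real.log X ^ (3 * ((2 * K + 1) ^ m - 1)))}.ncard : ℝ) ≤ ε * X / Real.log X ^ 3 := by
  have hr0 : (1 : ℝ) ≤ r := by exact_mod_cast hr
  obtain ⟨c, hc, B, h⟩ := sys_typS (F b) (F_sys b hb) (Dv b) (fun q n hn h => (F_dv b q n hb hn).2 h) m K hK
    (1 / (r : ℝ)) ε (by positivity) (by rw [div_le_one (by linarith)]; exact hr0) hε
  refine ⟨c, hc, B, ?_⟩
  filter_upwards [h] with X hX A D hA hB hD S hS
  exact hX A D hB hD S (hS.trans Set.inter_subset_right) (good_rough b t r A X hr hA S hS)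

/-- **Common patterns.** -/
theorem common (M : ℕ) (b t : Fin M → ℕ) (hb : ∀ j, 1 ≤ b j) (r : ℕ) (hr : 1 ≤ r) (m k : ℕ) (δ : ℝ) (hδ : 0 < δ) :
    ∃ c : ℝ, 0 < c ∧ ∃ B : ℕ, ∀ᶠ X : ℕ in atTop, ∀ D : ℕ,
    Real.log X ^ B ≤ D → D ≤ X → ∀ (A : Fin M → ℕ) (S : Fin M → Set ℕ), (∀ j, X ≤ A j) →
    (∀ j, S j ⊆ Good (b j) (t j) r ∩ Set.Ioc (A j) (A j + X)) →
    (∀ j, δ * X / Real.log X ^ 3 ≤ ((S j).ncard : ℝ)) →
    c * (D : ℝ) ^ m ≤ ({d : Fin m → ℕ | (∀ i, 1 ≤ d i ∧ d i ≤ D) ∧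
      GoodR (fun j => Dv (b j)) c k X S d}.ncard : ℝ) := by
  have hr0 : (1 : ℝ) ≤ r := by exact_mod_cast hr
  obtain ⟨c, hc, B, h⟩ := sys_common (fun j => F (b j)) (fun j => F_sys (b j) (hb j)) (fun j => Dv (b j))
    (fun j q n hn => F_dv (b j) q n (hb j) hn) m k
    (1 / (r : ℝ)) δ (by positivity) (by rw [div_le_one (by linarith)]; exact hr0) hδ
  refine ⟨c, hc, B, ?_⟩
  filter_upwards [h] with X hX D hB hD A S hA hS hc
  exact hX D hB hD A S (fun j => (hS j).trans Set.inter_subset_right)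
    (fun j => good_rough (b j) (t j) r (A j) X hr (hA j) (S j) (hS j)) hc

end Pool.Agent.X58.CN
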