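import Pool.Agent.X58.CN.Low2

set_option autoImplicit false

/-!
# Regular neighbourhoods in the sets of the parameters
-/

namespace Pool.Agent.X58.CN

open Finset Filter Polynomial
open Pool.Agent.TH977.PW
open Pool.Agent.W182.PW

theorem form0 (b m : ℕ) (hb : 1 ≤ b) (hm : 1 ≤ m) (i : Fin 3) :
    ((![1, 12 * b, 12 * b] i : ℕ) : ℤ) * m + (![(0 : ℤ), -1, 1] i) =
      ((![m, 12 * b * m - 1, 12 * b * m + 1] i : ℕ) : ℤ) := by
  have h0 : 0 < 12 * b * m := by positivity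
  have h1 : ((12 * b * m - 1 : ℕ) : ℤ) = 12 * b * m - 1 := by
    rw [Nat.cast_sub (by omega)]
    push_cast
    ring
  fin_cases i
  · simp
  · simp only [Fin.mk_one, Matrix.cons_val_one, Matrix.cons_val_zero]
    rw [h1]
    push_cast
    ring
  · simp

theorem reg (b t : ℕ) (h : Adm b t) (θ : ℝ) (hθ : 1 / 2 < θ) (hθ1 : θ ≤ 1) :
    ∃ r₀ : ℕ, 2 ≤ r₀ ∧ ∀ r : ℕ, r₀ ≤ r →
    (∃ κ : ℝ, 0 < κ ∧ ∀ᶠ X : ℕ in atTop, ∀ Y : ℕ, (X : ℝ) ^ θ ≤ Y → Y ≤ X →
      κ * Y / Real.log X ^ 3 ≤ N (Good b t r) X (X + Y)) ∧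
    ∀ ε : ℝ, 0 < ε → ∃ c : ℝ, 0 < c ∧ ∀ δ : ℝ, 0 < δ → ∃ B : ℕ,
      ∀ᶠ X : ℕ in atTop, ∀ Y : ℕ, (X : ℝ) ^ θ ≤ Y → 2 * Y ≤ X →
        ∀ A : Set ℕ, A ⊆ Good b t r →
        (N (Irregular A 3 c δ B X Y) X (X + Y) : ℝ) ≤ ε * Y / Real.log X ^ 3 := by
  classical
  have hb1 : 1 ≤ b := Nat.one_le_iff_ne_zero.2 h.1.ne_zero
  obtain ⟨r₁, hr₁, h1⟩ := lowS b t h θ hθ hθ1
  obtain ⟨r₂, hr₂, h2⟩ := final_lin (![1, 12 * b, 12 * b] : Fin 3 → ℕ) (![0, -1, 1] : Fin 3 → ℤ)
    (by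
      intro i
      fin_cases i <;> simp <;> omega)
    (by
      intro i
      fin_cases i
      · show IsCoprime ((1 : ℕ) : ℤ) 0
        exact ⟨1, 0, by norm_num⟩
      · show IsCoprime ((12 * b : ℕ) : ℤ) (-1)
        exact ⟨0, -1, by norm_num⟩
      · show IsCoprime ((12 * b : ℕ) : ℤ) 1
        exact ⟨0, 1, by norm_num⟩)
    (by
      intro i j h1 h2
      fin_cases i <;> fin_cases j <;> simp at h1 h2 ⊢)
    (by
      intro p hp
      haveI : Fact p.Prime := ⟨hp⟩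
      obtain ⟨y, hy0, hy1, hy2⟩ := inv_ex p ((12 * b : ℕ) : ZMod p) (by
        intro h3
        have h4 : p = 2 ∨ p = 3 := by
          have := hp.two_le
          omega
        rw [ZMod.natCast_eq_zero_iff]
        rcases h4 with h4 | h4
        · rw [h4]
          exact ⟨6 * b, by ring⟩
        · rw [h4]
          exact ⟨4 * b, by ring⟩)
      obtain ⟨m, hm⟩ : ∃ m : ℕ, ((m : ℕ) : ZMod p) = y := ⟨y.val, by
        rw [ZMod.natCast_val, ZMod.cast_id]⟩
      refine ⟨m, fun i => ?_⟩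
      rw [← ZMod.intCast_zmod_eq_zero_iff_dvd]
      rw [← hm] at hy0 hy1 hy2
      fin_cases i
      · intro h
        apply hy0
        simp at h
        exact h
      · intro h
        apply hy1
        simp only [Fin.mk_one, Matrix.cons_val_one, Matrix.cons_val_zero] at h
        push_cast at h ⊢
        linear_combination h
      · intro h
        apply hy2
        simp at h
        push_cast at h ⊢
        linear_combination h)
    (fun r => Good b t r) (fun _ => Set.univ) 3 (by simp)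
    (fun r m _ hm i p hp hd => by
      have hm1 : 1 ≤ m := by
        rcases Nat.eq_zero_or_pos m with h0 | h0
        · exfalso
          have h1 := hm.2.1.ne_zero
          apply h1
          rw [h0]
          unfold num
          simp
        · exact h0
      rw [form0 b m hb1 hm1 i, Int.natCast_dvd_natCast] at hd
      refine hm.2.2.2 p hp ?_
      fin_cases i
      · exact Or.inl hd
      · exact Or.inr (Or.inl hd)
      · exact Or.inr (Or.inr hd))
    (fun _ _ _ _ _ => Set.mem_univ _) θ (by linarith) hθ1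
  refine ⟨max r₁ r₂, le_max_of_le_left hr₁, fun r hr => ⟨?_, (h2 r ((le_max_right _ _).trans hr)).2⟩⟩
  obtain ⟨δ, hδ, h3⟩ := h1 r ((le_max_left _ _).trans hr)
  refine ⟨δ, hδ, ?_⟩
  filter_upwards [h3] with X hX Y hXY hYX
  refine (hX Y hXY hYX).trans (Nat.cast_le.2 ?_)
  unfold N
  rw [← Set.ncard_coe_finset]
  apply Set.ncard_le_ncard _ (Finset.finite_toSet _)
  intro n hn
  rw [Finset.mem_coe, mem_filter, mem_Ioc]
  exact ⟨hn.2, hn.1⟩

end Pool.Agent.X58.CN
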