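import Mathlib

set_option autoImplicit false

/-!
# The number of the arguments for which a linear form is divisible by the square of a large prime
-/

namespace Pool.Agent.X58.CN

open Finset Filter

theorem card_cls (X Y q m0 : ℕ) (hq : 0 < q) :
    (((Ioc X (X + Y)).filter (fun m => m ≡ m0 [MOD q])).card : ℝ) ≤ (Y : ℝ) / q + 1 := by
  have h := Nat.Ioc_filter_modEq_card X (X + Y) hq m0
  have h2 : ((((Ioc X (X + Y)).filter (fun m => m ≡ m0 [MOD q])).card : ℤ) : ℚ) ≤ (Y : ℚ) / q + 1 := by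
    rw [h]
    push_cast
    have h3 := Int.floor_le ((((X : ℚ) + Y) - m0) / q)
    have h4 := Int.lt_floor_add_one (((X : ℚ) - m0) / q)
    have h5 : (((X : ℚ) + Y) - m0) / q = ((X : ℚ) - m0) / q + Y / q := by ring
    rw [max_le_iff]
    constructor
    · linarith
    · positivity
  have h6 : ((((Ioc X (X + Y)).filter (fun m => m ≡ m0 [MOD q])).card : ℚ) : ℝ) ≤ (((Y : ℚ) / q + 1 : ℚ) : ℝ) := by
    exact_mod_cast h2
  push_cast at h6
  exact h6

open Classical in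
theorem bad (a c Z X Y : ℕ) (ha : 0 < a) (hZ : 1 ≤ Z) (hco : a ≤ Z) :
    (((Ioc X (X + Y)).filter (fun m => ∃ q : ℕ, q.Prime ∧ Z < q ∧ q ^ 2 ∣ a * m + c)).card : ℝ) ≤
      (Y : ℝ) / Z + Nat.sqrt (a * (X + Y) + c) := by
  set Q := Nat.sqrt (a * (X + Y) + c) with hQ
  have hsub : (Ioc X (X + Y)).filter (fun m => ∃ q : ℕ, q.Prime ∧ Z < q ∧ q ^ 2 ∣ a * m + c) ⊆
      (Ioc Z Q).biUnion (fun q => (Ioc X (X + Y)).filter (fun m => q.Prime ∧ Z < q ∧ q ^ 2 ∣ a * m + c)) := by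
    intro m hm
    rw [mem_filter] at hm
    obtain ⟨hm1, q, hq, hZq, hd⟩ := hm
    rw [mem_biUnion]
    refine ⟨q, ?_, ?_⟩
    · rw [mem_Ioc] at hm1 ⊢
      refine ⟨hZq, ?_⟩
      rw [hQ, Nat.le_sqrt']
      have h1 : 0 < a * m + c := by
        have : 0 < a * m := Nat.mul_pos ha (by omega)
        omega
      refine (Nat.le_of_dvd h1 hd).trans ?_
      have := Nat.mul_le_mul_left a hm1.2
      omega
    · rw [mem_filter]
      exact ⟨hm1, hq, hZq, hd⟩
  have h1 : ∀ q ∈ Ioc Z Q, (((Ioc X (X + Y)).filter (fun m => q.Prime ∧ Z < q ∧ q ^ 2 ∣ a * m + c)).card : ℝ) ≤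
      (Y : ℝ) * (((q : ℝ)) ^ 2)⁻¹ + 1 := by
    intro q hq
    rw [mem_Ioc] at hq
    rcases Finset.eq_empty_or_nonempty ((Ioc X (X + Y)).filter (fun m => q.Prime ∧ Z < q ∧ q ^ 2 ∣ a * m + c))
      with he | ⟨m0, hm0⟩
    · rw [he]
      simp only [card_empty, Nat.cast_zero]
      positivity
    · rw [mem_filter] at hm0
      obtain ⟨_, hqp, _, hd0⟩ := hm0
      have hsub2 : (Ioc X (X + Y)).filter (fun m => q.Prime ∧ Z < q ∧ q ^ 2 ∣ a * m + c) ⊆
          (Ioc X (X + Y)).filter (fun m => m ≡ m0 [MOD q ^ 2]) := by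
        intro m hm
        rw [mem_filter] at hm ⊢
        refine ⟨hm.1, ?_⟩
        have h2 : a * m + c ≡ a * m0 + c [MOD q ^ 2] := by
          rw [Nat.ModEq, Nat.eq_zero_of_dvd_of_lt (a := q ^ 2) (b := (a * m + c) % q ^ 2)
            ((Nat.dvd_mod_iff (dvd_refl _)).2 hm.2.2.2) (Nat.mod_lt _ (by have := hqp.pos; positivity)),
            Nat.eq_zero_of_dvd_of_lt (a := q ^ 2) (b := (a * m0 + c) % q ^ 2)
            ((Nat.dvd_mod_iff (dvd_refl _)).2 hd0) (Nat.mod_lt _ (by have := hqp.pos; positivity))]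
        have h3 := Nat.ModEq.add_right_cancel' c h2
        refine Nat.ModEq.cancel_left_of_coprime ?_ h3
        apply Nat.Coprime.pow_left
        rw [hqp.coprime_iff_not_dvd]
        intro h4
        have := Nat.le_of_dvd ha h4
        omega
      have h3 := card_cls X Y (q ^ 2) m0 (by have := hqp.pos; positivity)
      have h4 : (((Ioc X (X + Y)).filter (fun m => q.Prime ∧ Z < q ∧ q ^ 2 ∣ a * m + c)).card : ℝ) ≤
          (((Ioc X (X + Y)).filter (fun m => m ≡ m0 [MOD q ^ 2])).card : ℝ) := by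
        exact_mod_cast card_le_card hsub2
      refine h4.trans (h3.trans (le_of_eq ?_))
      push_cast
      rw [div_eq_mul_inv]
  have h2 : (((Ioc X (X + Y)).filter (fun m => ∃ q : ℕ, q.Prime ∧ Z < q ∧ q ^ 2 ∣ a * m + c)).card : ℝ) ≤
      ∑ q ∈ Ioc Z Q, ((Y : ℝ) * (((q : ℝ)) ^ 2)⁻¹ + 1) := by
    refine le_trans ?_ (sum_le_sum h1)
    have h3 := (card_le_card hsub).trans card_biUnion_le
    exact_mod_cast h3
  refine h2.trans ?_
  rw [sum_add_distrib, ← mul_sum]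
  have h3 : ∑ q ∈ Ioc Z Q, (((q : ℝ)) ^ 2)⁻¹ ≤ ((Z : ℝ))⁻¹ := by
    rcases le_or_gt Z Q with h | h
    · refine (sum_Ioc_inv_sq_le_sub (by omega) h).trans ?_
      have : (0 : ℝ) ≤ ((Q : ℝ))⁻¹ := by positivity
      linarith
    · rw [Ioc_eq_empty (by omega), sum_empty]
      positivity
  have h4 : ∑ q ∈ Ioc Z Q, (1 : ℝ) ≤ Q := by
    rw [sum_const, nsmul_eq_mul, mul_one, Nat.card_Ioc]
    exact_mod_cast Nat.sub_le _ _
  have h5 : (Y : ℝ) * ∑ q ∈ Ioc Z Q, (((q : ℝ)) ^ 2)⁻¹ ≤ (Y : ℝ) * ((Z : ℝ))⁻¹ :=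
    mul_le_mul_of_nonneg_left h3 (Nat.cast_nonneg _)
  rw [div_eq_mul_inv]
  linarith

/-- powers of the logarithm -/
theorem logk (s e : ℝ) (hs : 0 < s) (he : 0 < e) (k : ℕ) : ∀ᶠ X : ℕ in atTop, Real.log X ^ k ≤ e * (X : ℝ) ^ s := by
  have h1 := (isLittleO_log_rpow_rpow_atTop (k : ℝ) hs).bound he
  have h2 := tendsto_natCast_atTop_atTop (R := ℝ)
  filter_upwards [h2.eventually h1, eventually_ge_atTop 3] with X hX h3
  have hl : 0 ≤ Real.log X := Real.log_natCast_nonneg X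
  have hX0 : (0 : ℝ) ≤ (X : ℝ) ^ s := by positivity
  rw [Real.rpow_natCast, Real.norm_of_nonneg (by positivity), Real.norm_of_nonneg hX0] at hX
  exact hX

end Pool.Agent.X58.CN
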